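import Pool.Agent.Q234.KG.Stm

/-!
# Project KG of helper234, job KG-UP: the one site terms
-/

set_option autoImplicit false

open scoped BigOperators
open Finset

namespace Pool.Agent.Q214.KG.UP

open Pool.Agent.Q234.KT (IsSize)
open Pool.Agent.Q234.KG

section

variable {V : Type} [Fintype V] [DecidableEq V] {d : ℕ} [NeZero d]

theorem co_Gp (hW : FourS) (g : (V → Fin d) → ℂ) (c m : V → Fin d) :
    co (Gp g c) m = g m * (ch m c - 1) :=
  (hW d V).2.1 (fun m => g m * (ch m c - 1)) m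

theorem co_le (hW : FourS) (g : (V → Fin d) → ℂ) (u : V) (a : Fin d) (m : V → Fin d) :
    ‖co (Gp g (Pi.single u a)) m‖ ≤ if m u ≠ 0 then 2 * ‖g m‖ else 0 := by
  obtain ⟨-, -, -, -, -, -, -, h8, h9, -⟩ := hW d V
  rw [co_Gp hW, norm_mul]
  split_ifs with h
  · have h1 : ‖ch m (Pi.single u a) - 1‖ ≤ 2 := by
      refine (norm_sub_le _ _).trans ?_
      rw [h8, norm_one]
      norm_num
    nlinarith [norm_nonneg (g m)]
  · have h1 : ch m (Pi.single u a) = 1 := by
      apply h9
      intro v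
      by_cases hv : v = u
      · left
        rw [hv]
        exact not_not.1 h
      · right
        rw [Pi.single_eq_of_ne hv]
    rw [h1, sub_self, norm_zero, mul_zero]

theorem union_sp {m : V → Fin d} {u : V} (h : m u ≠ 0) : ({u} : Finset V) ∪ sp m = sp m := by
  rw [Finset.union_eq_right]
  simpa [sp] using h

theorem term_le (hW : FourS) {r : ℝ} (hr : 0 ≤ r) (t : Finset V → ℕ) (g : (V → Fin d) → ℂ) (u : V)
    (a : Fin d) (m : V → Fin d) :
    ‖co (Gp g (Pi.single u a)) m‖ * r ^ t ({u} ∪ sp m) ≤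
      if m u ≠ 0 then 2 * (‖g m‖ * r ^ t (sp m)) else 0 := by
  have h1 := co_le hW g u a m
  split_ifs with h
  · rw [if_pos h] at h1
    rw [union_sp h]
    have h2 : 0 ≤ r ^ t (sp m) := by positivity
    nlinarith
  · rw [if_neg h] at h1
    have h2 : ‖co (Gp g (Pi.single u a)) m‖ = 0 := le_antisymm h1 (norm_nonneg _)
    rw [h2, zero_mul]

/-- the norm of the one site function -/
theorem nm_le (hW : FourS) {r : ℝ} (hr : 0 ≤ r) (t : Finset V → ℕ) (g : (V → Fin d) → ℂ) (u : V)
    (a : Fin d) : nm r t {u} (Gp g (Pi.single u a)) ≤ 2 * nb r t u g := by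
  unfold nm nb
  rw [Finset.mul_sum, Finset.sum_filter]
  refine Finset.sum_le_sum fun m _ => (term_le hW hr t g u a m).trans ?_
  split_ifs with h
  · have hc : (1 : ℝ) ≤ (sp m).card := by
      have : u ∈ sp m := by simpa [sp] using h
      exact_mod_cast Finset.card_pos.2 ⟨u, this⟩
    have h3 : 0 ≤ ‖g m‖ * r ^ t (sp m) := by positivity
    nlinarith
  · exact le_rfl

/-- the sum over the sites of the parts through `x` -/
theorem sum_nx (hW : FourS) {r : ℝ} (hr : 0 ≤ r) (t : Finset V → ℕ) (g : (V → Fin d) → ℂ) (x : V)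
    (a : Fin d) : ∑ u, nx r t {u} x (Gp g (Pi.single u a)) ≤ 2 * nb r t x g := by
  unfold nx nb
  rw [Finset.sum_comm, Finset.mul_sum]
  refine Finset.sum_le_sum fun m _ => ?_
  refine (Finset.sum_le_sum fun u _ => term_le hW hr t g u a m).trans (le_of_eq ?_)
  rw [← Finset.sum_filter, Finset.sum_const, nsmul_eq_mul]
  have : (univ.filter fun u => m u ≠ 0) = sp m := rfl
  rw [this]
  ring

theorem nb_nonneg {r : ℝ} (hr : 0 ≤ r) (t : Finset V → ℕ) (g : (V → Fin d) → ℂ) (x : V) :
    0 ≤ nb r t x g := Finset.sum_nonneg fun m _ => by positivity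

theorem nx_nonneg {r : ℝ} (hr : 0 ≤ r) (t : Finset V → ℕ) (S : Finset V) (x : V)
    (F : (V → Fin d) → ℂ) : 0 ≤ nx r t S x F := Finset.sum_nonneg fun m _ => by positivity

theorem co_lin (α : Fin d → ℂ) (F : Fin d → (V → Fin d) → ℂ) (m : V → Fin d) :
    co (fun σ => ∑ a, α a * F a σ) m = ∑ a, α a * co (F a) m := by
  unfold co
  have h : ∑ σ, (∑ a, α a * F a σ) * (starRingEnd ℂ) (ch m σ) =
      ∑ a, α a * ∑ σ, F a σ * (starRingEnd ℂ) (ch m σ) := by
    simp only [Finset.sum_mul, Finset.mul_sum]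
    rw [Finset.sum_comm]
    exact Finset.sum_congr rfl fun a _ => Finset.sum_congr rfl fun σ _ => by ring
  rw [h, Finset.mul_sum]
  exact Finset.sum_congr rfl fun a _ => by ring

theorem nx_lin {r : ℝ} (hr : 0 ≤ r) (t : Finset V → ℕ) (S : Finset V) (x : V) (α : Fin d → ℂ)
    (F : Fin d → (V → Fin d) → ℂ) :
    nx r t S x (fun σ => ∑ a, α a * F a σ) ≤ ∑ a, ‖α a‖ * nx r t S x (F a) := by
  unfold nx
  simp only [Finset.mul_sum]
  rw [Finset.sum_comm]
  refine Finset.sum_le_sum fun m _ => ?_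
  rw [co_lin]
  have h1 : ‖∑ a, α a * co (F a) m‖ ≤ ∑ a, ‖α a‖ * ‖co (F a) m‖ :=
    (norm_sum_le _ _).trans (le_of_eq (Finset.sum_congr rfl fun a _ => norm_mul _ _))
  refine (mul_le_mul_of_nonneg_right h1 (by positivity)).trans (le_of_eq ?_)
  rw [Finset.sum_mul]
  exact Finset.sum_congr rfl fun a _ => by ring

theorem Gp_sub (g g' : (V → Fin d) → ℂ) (c σ : V → Fin d) :
    Gp g c σ - Gp g' c σ = Gp (fun m => g m - g' m) c σ := by
  unfold Gp
  rw [← Finset.sum_sub_distrib]
  exact Finset.sum_congr rfl fun X _ => by ring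

end

theorem main (h1 : FourS) (h2 : ExpS) : UPart := by
  intro d _ V _ _ t α r δ η ht hr hδ g g' hg hg' hd x
  have hr0 : (0 : ℝ) ≤ r := by linarith
  have hδ0 : 0 ≤ δ := (nb_nonneg hr0 t g x).trans (hg x)
  have hη0 : 0 ≤ η := (nb_nonneg hr0 t _ x).trans (hd x)
  have he1 : Real.exp (2 * δ) - 1 ≤ 4 * δ := by
    have h := Real.abs_exp_sub_one_le (x := 2 * δ) (by rw [abs_of_nonneg (by positivity)]; exact hδ)
    rw [abs_of_nonneg (a := 2 * δ) (by positivity)] at h
    have := (le_abs_self _).trans h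
    linarith
  have he2 : Real.exp (2 * δ) ≤ 3 := by
    have h3 : Real.exp (2 * δ) ≤ Real.exp 1 := Real.exp_le_exp.2 hδ
    have h4 := Real.exp_one_lt_d9
    linarith
  have he0 : 0 ≤ Real.exp (2 * δ) - 1 := by
    have := Real.one_le_exp (x := 2 * δ) (by positivity)
    linarith
  -- the bound for one shift
  have key : ∀ a : Fin d, ∑ u, nx r t {u} x (fun σ =>
      (Complex.exp (Gp g (Pi.single u a) σ) - 1 - Gp g (Pi.single u a) σ) -
      (Complex.exp (Gp g' (Pi.single u a) σ) - 1 - Gp g' (Pi.single u a) σ)) ≤ 48 * δ * η := by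
    intro a
    have hpt : ∀ u : V, nx r t {u} x (fun σ =>
        (Complex.exp (Gp g (Pi.single u a) σ) - 1 - Gp g (Pi.single u a) σ) -
        (Complex.exp (Gp g' (Pi.single u a) σ) - 1 - Gp g' (Pi.single u a) σ)) ≤
        4 * δ * nx r t {u} x (Gp (fun m => g m - g' m) (Pi.single u a)) +
        6 * η * (nx r t {u} x (Gp g (Pi.single u a)) + nx r t {u} x (Gp g' (Pi.single u a))) := by
      intro u
      have hF : nm r t {u} (Gp g (Pi.single u a)) ≤ 2 * δ :=
        (nm_le h1 hr0 t g u a).trans (by linarith [hg u])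
      have hF' : nm r t {u} (Gp g' (Pi.single u a)) ≤ 2 * δ :=
        (nm_le h1 hr0 t g' u a).trans (by linarith [hg' u])
      have hD : nm r t {u} (Gp (fun m => g m - g' m) (Pi.single u a)) ≤ 2 * η :=
        (nm_le h1 hr0 t _ u a).trans (by linarith [hd u])
      have h := ((h2 d V t r {u} ht hr (Finset.singleton_nonempty u)
        (Gp g (Pi.single u a)) (Gp g' (Pi.single u a)) (2 * δ) hF hF').2 x).2
      have e1 : (fun σ => Gp g (Pi.single u a) σ - Gp g' (Pi.single u a) σ) =
          Gp (fun m => g m - g' m) (Pi.single u a) := funext fun σ => Gp_sub g g' _ σ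
      have e2 : (fun σ => (Complex.exp (Gp g (Pi.single u a) σ) - 1 - Gp g (Pi.single u a) σ) -
          (Complex.exp (Gp g' (Pi.single u a) σ) - 1 - Gp g' (Pi.single u a) σ)) =
          fun σ => Complex.exp (Gp g (Pi.single u a) σ) - Complex.exp (Gp g' (Pi.single u a) σ) -
            (Gp g (Pi.single u a) σ - Gp g' (Pi.single u a) σ) := by
        funext σ
        ring
      rw [e2]
      refine h.trans ?_
      rw [e1]
      have n1 := nx_nonneg hr0 t {u} x (Gp (fun m => g m - g' m) (Pi.single u a))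
      have n2 := nx_nonneg hr0 t {u} x (Gp g (Pi.single u a))
      have n3 := nx_nonneg hr0 t {u} x (Gp g' (Pi.single u a))
      have n4 : 0 ≤ nx r t {u} x (Gp g (Pi.single u a)) + nx r t {u} x (Gp g' (Pi.single u a)) := by
        linarith
      have h5 := mul_le_mul_of_nonneg_right he1 n1
      have h6 : Real.exp (2 * δ) * nm r t {u} (Gp (fun m => g m - g' m) (Pi.single u a)) ≤
          3 * (2 * η) := by
        refine (mul_le_mul_of_nonneg_left hD (Real.exp_pos _).le).trans ?_
        exact mul_le_mul_of_nonneg_right he2 (by positivity)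
      have h7 := mul_le_mul_of_nonneg_right h6 n4
      linarith
    refine (Finset.sum_le_sum fun u _ => hpt u).trans ?_
    rw [Finset.sum_add_distrib, ← Finset.mul_sum, ← Finset.mul_sum, Finset.sum_add_distrib]
    have s1 : ∑ u, nx r t {u} x (Gp (fun m => g m - g' m) (Pi.single u a)) ≤ 2 * η :=
      (sum_nx h1 hr0 t _ x a).trans (by linarith [hd x])
    have s2 : ∑ u, nx r t {u} x (Gp g (Pi.single u a)) ≤ 2 * δ :=
      (sum_nx h1 hr0 t g x a).trans (by linarith [hg x])
    have s3 : ∑ u, nx r t {u} x (Gp g' (Pi.single u a)) ≤ 2 * δ :=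
      (sum_nx h1 hr0 t g' x a).trans (by linarith [hg' x])
    have a1 := mul_le_mul_of_nonneg_left s1 (show 0 ≤ 4 * δ by positivity)
    have a2 := mul_le_mul_of_nonneg_left (add_le_add s2 s3) (show 0 ≤ 6 * η by positivity)
    have a3 : 0 ≤ δ * η := by positivity
    nlinarith
  calc ∑ u, nx r t {u} x (fun σ => ∑ a, α a *
      ((Complex.exp (Gp g (Pi.single u a) σ) - 1 - Gp g (Pi.single u a) σ) -
      (Complex.exp (Gp g' (Pi.single u a) σ) - 1 - Gp g' (Pi.single u a) σ)))
      ≤ ∑ u, ∑ a, ‖α a‖ * nx r t {u} x (fun σ =>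
        (Complex.exp (Gp g (Pi.single u a) σ) - 1 - Gp g (Pi.single u a) σ) -
        (Complex.exp (Gp g' (Pi.single u a) σ) - 1 - Gp g' (Pi.single u a) σ)) :=
        Finset.sum_le_sum fun u _ => nx_lin hr0 t {u} x α fun a σ =>
          (Complex.exp (Gp g (Pi.single u a) σ) - 1 - Gp g (Pi.single u a) σ) -
          (Complex.exp (Gp g' (Pi.single u a) σ) - 1 - Gp g' (Pi.single u a) σ)
    _ = ∑ a, ‖α a‖ * ∑ u, nx r t {u} x (fun σ =>
        (Complex.exp (Gp g (Pi.single u a) σ) - 1 - Gp g (Pi.single u a) σ) -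
        (Complex.exp (Gp g' (Pi.single u a) σ) - 1 - Gp g' (Pi.single u a) σ)) := by
        rw [Finset.sum_comm]
        exact Finset.sum_congr rfl fun a _ => (Finset.mul_sum _ _ _).symm
    _ ≤ ∑ a, ‖α a‖ * (48 * δ * η) :=
        Finset.sum_le_sum fun a _ => mul_le_mul_of_nonneg_left (key a) (norm_nonneg _)
    _ = 48 * (∑ a, ‖α a‖) * δ * η := by
        rw [← Finset.sum_mul]
        ring

end Pool.Agent.Q214.KG.UP
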